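import Pool.Agent.Helper81.Dissoc.Defs
import Pool.Agent.Helper81.Dissoc.Cyclic

/-!
# The value of `dim(ℤ_n, m)` for `m` close to `n`
-/

set_option autoImplicit false

namespace Pool.Agent.Results.MP_6c00f2_co.CyclicNearFull

open Pool.Agent.Helper81.Dissoc

/-- If `m ≤ n` and `(n - m) * ∑_{j < ⌊log₂ n⌋} gcd(2^j, n) < φ(n)` then
`dim(ℤ_n, m) = ⌊log₂ n⌋`. -/
theorem result : ∀ n m : ℕ, m ≤ n →
    (n - m) * ∑ j ∈ Finset.range (Nat.log 2 n), Nat.gcd (2 ^ j) n < Nat.totient n →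
    dimGm (ZMod n) m = Nat.log 2 n :=
  fun _ _ hm h => dimGm_zmod hm h

end Pool.Agent.Results.MP_6c00f2_co.CyclicNearFull
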