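import Pool.Agent.Helper81.Dissoc.Defs
import Pool.Agent.Helper81.Dissoc.Elementary

/-!
# `dim(G, m)` for elementary abelian 2-groups and 3-groups
-/

set_option autoImplicit false

namespace Pool.Agent.Results.MP_6c00f2_co.ElementaryAbelian

open Pool.Agent.Helper81.Dissoc

/-- For `p = 2` and `p = 3` and every `m ≤ p^r`, the minimum dissociativity dimension of an
`m`-element subset of `(ℤ/p)^r` is `⌈log_p m⌉`. -/
theorem result : ∀ p r m : ℕ, p = 2 ∨ p = 3 → m ≤ p ^ r →
    dimGm (Fin r → ZMod p) m = Nat.clog p m := by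
  intro p r m hp hm
  have : Fact p.Prime := ⟨by rcases hp with rfl | rfl <;> norm_num⟩
  exact dimGm_elementary hp r m hm

end Pool.Agent.Results.MP_6c00f2_co.ElementaryAbelian
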