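import Pool.Agent.DSC.Main

/-!
# The minimum dissociativity dimension is at least `log₂ m - C` for cyclic groups

There is an absolute constant `C` such that for every finite abelian group `G`, every `1 ≤ m ≤ |G|` and every `r ≥ 1`
such that `G` is generated by `r` elements,
`log₂ m - C r log₂ (2r) ≤ dim(G, m)`, and `dim(G, m) ≤ log₂ m + (log₂ log₂ m) / 2 + C` if `m ≥ 4`.
The same holds if, instead of being generated by `r` elements, `G` has at most `k ^ r` elements `x` with `k x = 0` for all
`k ≥ 1` with `k ^ (r + 1) ≤ m`.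
-/

set_option autoImplicit false

namespace Pool.Agent.Results.MP_6c00f2_co.LogWithinConstant

open Pool.Agent.Helper81.Dissoc

open Classical in
theorem result :
    ∃ C : ℝ, ∀ (G : Type*) [AddCommGroup G] [Fintype G] (m r : ℕ), 1 ≤ m → m ≤ Fintype.card G → 1 ≤ r →
      ((∃ S : Finset G, AddSubgroup.closure (S : Set G) = ⊤ ∧ S.card ≤ r) ∨
        ∀ k : ℕ, 1 ≤ k → k ^ (r + 1) ≤ m → (Finset.univ.filter fun x : G => k • x = 0).card ≤ k ^ r) →
      Real.logb 2 m - C * (r * Real.logb 2 (2 * r)) ≤ dimGm G m ∧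
        (4 ≤ m → (dimGm G m : ℝ) ≤ Real.logb 2 m + Real.logb 2 (Real.logb 2 m) / 2 + C) :=
  DSC.main

end Pool.Agent.Results.MP_6c00f2_co.LogWithinConstant
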