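import Pool.Agent.Helper81.Dissoc.Rough

/-!
# `dim(G, m)` for `m ≤ 25` and groups without small torsion

For every finite abelian group `G` whose order has no prime factor `≤ 16384` the numbers `dim(G, m)`,
`m ≤ 25`, are those of the intervals of integers: `0, 1, 2, 3, 4` for `m = 1`, `m ≤ 3`, `m ≤ 7`, `m ≤ 13`,
`m ≤ 25`.  So for every prime `n > 16384` (and every `n` without prime factor `≤ 16384`) the conjectured value
`dim(ℤ_n, m) = ⌊log₂ m⌋` is wrong for `m = 14` and `m = 15`.

PROOF.  Lower bound for `m ≥ 14`.  An `m`-element set contains seven elements `x ≠ 0` with `x + x' ≠ 0` for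
different `x, x'`.  Less than `16384` elements of `G` (the `x`, `x - x'`, `x + x'`) have to be avoided by the
kernel of a character, and every kernel of evaluation in the dual group has index `> 16384`: so there is a
character `ψ` which separates them.  By Dirichlet's theorem a multiple `t ψ`, `1 ≤ t ≤ 4 ^ 7 = 16384`, takes the
seven elements to real numbers modulo one of absolute value `< 1 / 4`; `t` is prime to the order of `G`, so the seven real
numbers `y x` are not zero and different up to sign, and every relation with at most four terms between the `x` is
one between the real numbers `y x`.  Finally any seven positive real numbers contain four with distinct subset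
sums: for `x < y < z < w` there are only the six relations `x + y = z`, `x + y = w`, `x + z = w`, `y + z = w`,
`x + y + z = w`, `x + w = y + z`, and a case tree with 65 leaves (in `Seven.lean`) gives a contradiction if all 35
quadruples have a relation.  For `m ≥ 8` four positive reals contain three which are dissociated.

Upper bound: `m` elements of `{-k g, …, k g}`, `k = 1, 3, 6, 12`, where `g` has prime order `> 16384`: every
`5`-element subset of `{1, …, 12}` (`4`-element subset of `{1, …, 6}`, …) has two subsets with the same sum.
-/

set_option autoImplicit false

namespace Pool.Agent.Results.MP_6c00f2_co.SmallSubsets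

open Pool.Agent.Helper81.Dissoc

/-- If the order of the finite abelian group `G` has no prime factor `≤ 16384` and `1 ≤ m ≤ 25`, `m ≤ |G|`, then
`dim(G, m)` is `0` for `m = 1`, `1` for `m ≤ 3`, `2` for `m ≤ 7`, `3` for `m ≤ 13` and `4` for `m ≤ 25`. -/
theorem result (G : Type*) [AddCommGroup G] [Fintype G]
    (hG : ∀ p : ℕ, p.Prime → p ∣ Fintype.card G → 16384 < p) (m : ℕ) (hm1 : 1 ≤ m)
    (hmG : m ≤ Fintype.card G) (hm : m ≤ 25) :
    dimGm G m = if m ≤ 1 then 0 else if m ≤ 3 then 1 else if m ≤ 7 then 2 else
      if m ≤ 13 then 3 else 4 :=
  small_values hG m hm1 hmG hm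

end Pool.Agent.Results.MP_6c00f2_co.SmallSubsets
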